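import Pool.Agent.MWGI.StmtsC

/-!
# Squad MWGI, row CSB (helper21): crossing of letters with another common block
-/

set_option autoImplicit false

namespace Pool.Agent.MWGI.H21C

open Pool.Agent.Helper14_MV Pool.Agent.Helper2_MV Pool.Agent.MVO Pool.Agent.MWL Pool.Agent.MWS
  Pool.Agent.MWH Pool.Agent.MWGI

theorem two_split {x a : ℕ} (hxa : x ≠ a) {l : List ℕ} (hx : x ∈ l) (ha : a ∈ l) :
    (∃ P w Q : List ℕ, l = P ++ x :: (w ++ a :: Q)) ∨
      ∃ P w Q : List ℕ, l = P ++ a :: (w ++ x :: Q) := by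
  obtain ⟨P, Q, e⟩ := List.append_of_mem hx
  rw [e] at ha
  rcases List.mem_append.1 ha with h | h
  · obtain ⟨P1, P2, e1⟩ := List.append_of_mem h
    right
    refine ⟨P1, P2, Q, ?_⟩
    rw [e, e1]
    simp
  · rcases List.mem_cons.1 h with h | h
    · exact absurd h.symm hxa
    · obtain ⟨Q1, Q2, e1⟩ := List.append_of_mem h
      left
      refine ⟨P, Q1, Q2, ?_⟩
      rw [e, e1]

theorem count_swap (p t : List ℕ) (x a z : ℕ) :
    (p ++ a :: x :: t).count z = (p ++ x :: a :: t).count z := by
  simp only [List.count_append, List.count_cons]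
  omega

/-- row CSB -/
theorem csb : CsbStmt := by
  intro n k η C hBI hOB i j x a hik hjk hij hxa hx ha H A D hOk
  have hmu : ∀ z ∈ C j, z ∈ pre C i ++ suf C i (k - i) →
      2 ≤ (pre C i ++ ((A ++ x :: a :: D) ++ suf C i (k - i))).count z := by
    intro z hz hz2
    exact hOk.mu z hz2 (hOB.ok j hjk z hz)
  rcases Nat.lt_or_gt_of_ne hij with h | h
  · obtain ⟨R, R', e⟩ := suf_split (B := C) (r := k - i) h (by omega)
    have hin : ∀ z ∈ C j, z ∈ pre C i ++ suf C i (k - i) := by
      intro z hz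
      rw [e]
      simp [hz]
    show RR η (pre C i ++ ((A ++ x :: a :: D) ++ suf C i (k - i)))
      (pre C i ++ ((A ++ a :: x :: D) ++ suf C i (k - i)))
    rcases two_split hxa hx ha with ⟨P, w, Q, e1⟩ | ⟨P, w, Q, e1⟩
    · have w1 : ∀ s t : ℕ, pre C i ++ ((A ++ s :: t :: D) ++ suf C i (k - i)) =
          (pre C i ++ A) ++ s :: t :: ((D ++ R ++ P) ++ x :: (w ++ a :: (Q ++ R'))) := by
        intro s t
        rw [e, e1]
        simp
      rw [w1, w1]
      refine hBI.f _ _ _ _ x a ?_
      intro z hz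
      rw [← w1]
      have hzj : z ∈ C j := by rw [e1]; simp [hz]
      exact hmu z hzj (hin z hzj)
    · have w1 : ∀ s t : ℕ, pre C i ++ ((A ++ s :: t :: D) ++ suf C i (k - i)) =
          (pre C i ++ A) ++ s :: t :: ((D ++ R ++ P) ++ a :: (w ++ x :: (Q ++ R'))) := by
        intro s t
        rw [e, e1]
        simp
      rw [w1, w1]
      refine RR.symm (hBI.f _ _ _ _ a x ?_)
      intro z hz
      rw [count_swap, ← w1]
      have hzj : z ∈ C j := by rw [e1]; simp [hz]
      exact hmu z hzj (hin z hzj)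
  · obtain ⟨R, e⟩ := pre_split (B := C) h
    have hin : ∀ z ∈ C j, z ∈ pre C i ++ suf C i (k - i) := by
      intro z hz
      rw [e]
      simp [hz]
    show RR η (pre C i ++ ((A ++ x :: a :: D) ++ suf C i (k - i)))
      (pre C i ++ ((A ++ a :: x :: D) ++ suf C i (k - i)))
    rcases two_split hxa hx ha with ⟨P, w, Q, e1⟩ | ⟨P, w, Q, e1⟩
    · have w1 : ∀ s t : ℕ, pre C i ++ ((A ++ s :: t :: D) ++ suf C i (k - i)) =
          (pre C j ++ P) ++ x :: (w ++ a :: ((Q ++ R ++ A) ++ s :: t ::
            (D ++ suf C i (k - i)))) := by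
        intro s t
        rw [e, e1]
        simp
      rw [w1, w1]
      refine hBI.f' _ _ _ _ x a ?_
      intro z hz
      rw [← w1]
      have hzj : z ∈ C j := by rw [e1]; simp [hz]
      exact hmu z hzj (hin z hzj)
    · have w1 : ∀ s t : ℕ, pre C i ++ ((A ++ s :: t :: D) ++ suf C i (k - i)) =
          (pre C j ++ P) ++ a :: (w ++ x :: ((Q ++ R ++ A) ++ s :: t ::
            (D ++ suf C i (k - i)))) := by
        intro s t
        rw [e, e1]
        simp
      rw [w1, w1]
      refine RR.symm (hBI.f' _ _ _ _ a x ?_)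
      intro z hz
      rw [← w1]
      have hzj : z ∈ C j := by rw [e1]; simp [hz]
      have h2 := hmu z hzj (hin z hzj)
      have h3 : (pre C i ++ ((A ++ a :: x :: D) ++ suf C i (k - i))).count z =
          (pre C i ++ ((A ++ x :: a :: D) ++ suf C i (k - i))).count z := by
        simp only [List.count_append, List.count_cons]
        omega
      rw [h3]
      exact h2

end Pool.Agent.MWGI.H21C
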