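import Pool.Agent.MWGI.StmtsN

/-!
# Squad MWGI, row NSS (helper21): the order of two light letters
-/

set_option autoImplicit false

namespace Pool.Agent.MWGI.H21

open Pool.Agent.Helper14_MV Pool.Agent.Helper2_MV Pool.Agent.MVO Pool.Agent.MWL Pool.Agent.MWS
  Pool.Agent.MWH Pool.Agent.MWGI

/-! ### three blocks -/

theorem psh_single {f : ℕ → ℕ} {C : ℕ → List ℕ} {t j : ℕ} : ∀ {k : ℕ}, j ≤ k → f j = t →
    (∀ i ≤ k, f i = t → i ≠ j → C i = []) → pshB k f C t = C j := by
  intro k
  induction k with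
  | zero =>
    intro hj hf _
    have h0 : j = 0 := by omega
    subst h0
    rw [pshB_zero, if_pos hf]
  | succ k ih =>
    intro hj hf hn
    rw [pshB_succ]
    by_cases h : j = k + 1
    · subst h
      have h1 : pshB k f C t = [] := by
        rw [List.eq_nil_iff_forall_not_mem]
        intro c hc
        obtain ⟨i, hi, h2, h3⟩ := mem_pshB.1 hc
        rw [hn i (by omega) h2 (by omega)] at h3
        exact absurd h3 (List.not_mem_nil)
      rw [h1, if_pos hf, List.nil_append]
    · rw [ih (by omega) hf (fun i hi h1 h2 => hn i (by omega) h1 h2)]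
      by_cases h1 : f (k + 1) = t
      · rw [if_pos h1, hn (k + 1) (le_refl _) h1 (by omega), List.append_nil]
      · rw [if_neg h1, List.append_nil]

theorem core {k : ℕ} (θ : FIC) {C C' : ℕ → List ℕ} (hC : BlkOk k C) (hC' : BlkOk k C')
    (hr : RR θ (asm k C) (asm k C')) {j0 j1 j2 : ℕ} (h01 : j0 < j1) (h12 : j1 < j2) (h2k : j2 ≤ k)
    (hn : ∀ j ≤ k, j ≠ j0 → j ≠ j1 → j ≠ j2 → C j = [] ∧ C' j = []) :
    RR θ ((C j0 ++ 2 :: C j1) ++ 3 :: C j2) ((C' j0 ++ 2 :: C' j1) ++ 3 :: C' j2) := by
  have hf : BMap k 2 (fun j => if j < j1 then 0 else if j < j2 then 1 else 2) := by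
    refine ⟨fun i j hij hj => ?_, fun i hi => ?_⟩
    · show (if i < j1 then 0 else if i < j2 then 1 else 2) ≤
        (if j < j1 then 0 else if j < j2 then 1 else 2)
      split_ifs <;> omega
    · show (if i < j1 then 0 else if i < j2 then 1 else 2) ≤ 2
      split_ifs <;> omega
  have h := rr_push θ hf hC hC' hr
  have e0 : ∀ D : ℕ → List ℕ, (∀ j ≤ k, j ≠ j0 → j ≠ j1 → j ≠ j2 → D j = []) →
      asm 2 (pshB k (fun j => if j < j1 then 0 else if j < j2 then 1 else 2) D) =
        (D j0 ++ 2 :: D j1) ++ 3 :: D j2 := by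
    intro D hD
    have a0 : pshB k (fun j => if j < j1 then 0 else if j < j2 then 1 else 2) D 0 = D j0 := by
      refine psh_single (by omega) ?_ ?_
      · show (if j0 < j1 then 0 else if j0 < j2 then 1 else 2) = 0
        rw [if_pos h01]
      · intro i hi h1 h2
        have h3 : (if i < j1 then 0 else if i < j2 then 1 else 2) = 0 := h1
        have h4 : i < j1 := by
          by_contra h5
          rw [if_neg h5] at h3
          split_ifs at h3
        exact hD i hi h2 (by omega) (by omega)
    have a1 : pshB k (fun j => if j < j1 then 0 else if j < j2 then 1 else 2) D 1 = D j1 := by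
      refine psh_single (by omega) ?_ ?_
      · show (if j1 < j1 then 0 else if j1 < j2 then 1 else 2) = 1
        rw [if_neg (lt_irrefl _), if_pos h12]
      · intro i hi h1 h2
        have h3 : (if i < j1 then 0 else if i < j2 then 1 else 2) = 1 := h1
        have h4 : ¬ i < j1 := by
          intro h5
          rw [if_pos h5] at h3
          omega
        have h5 : i < j2 := by
          by_contra h6
          rw [if_neg h4, if_neg h6] at h3
          omega
        exact hD i hi (by omega) h2 (by omega)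
    have a2 : pshB k (fun j => if j < j1 then 0 else if j < j2 then 1 else 2) D 2 = D j2 := by
      refine psh_single h2k ?_ ?_
      · show (if j2 < j1 then 0 else if j2 < j2 then 1 else 2) = 2
        rw [if_neg (by omega), if_neg (lt_irrefl _)]
      · intro i hi h1 h2
        have h3 : (if i < j1 then 0 else if i < j2 then 1 else 2) = 2 := h1
        have h4 : ¬ i < j1 := by
          intro h5
          rw [if_pos h5] at h3
          omega
        have h5 : ¬ i < j2 := by
          intro h6
          rw [if_neg h4, if_pos h6] at h3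
          omega
        exact hD i hi (by omega) (by omega) h2
    show (pshB k _ D 0 ++ 2 :: pshB k _ D 1) ++ 3 :: pshB k _ D 2 = _
    rw [a0, a1, a2]
  rw [e0 C (fun j h1 h2 h3 h4 => (hn j h1 h2 h3 h4).1),
    e0 C' (fun j h1 h2 h3 h4 => (hn j h1 h2 h3 h4).2)] at h
  exact h

/-! ### the substitution -/

/-- the substitution `a ↦ sa`, `b ↦ sb`, the other letters are deleted -/
def hs (a b sa sb : ℕ) : ℕ → List ℕ := fun c => if c = a then [sa] else if c = b then [sb] else []

theorem fm_a {a b : ℕ} (sa sb : ℕ) (l : List ℕ) (h : b ∉ l) :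
    l.flatMap (hs a b sa sb) = List.replicate (l.count a) sa := by
  induction l with
  | nil => rfl
  | cons c l ih =>
    rw [List.flatMap_cons, ih (fun h1 => h (List.mem_cons_of_mem _ h1))]
    by_cases hc : c = a
    · subst hc
      have e : hs c b sa sb c = [sa] := if_pos rfl
      rw [e, List.count_cons_self, List.replicate_succ]
      rfl
    · have hcb : c ≠ b := fun h1 => h (by rw [h1]; exact List.mem_cons_self)
      have e : hs a b sa sb c = [] := by
        unfold hs
        rw [if_neg hc, if_neg hcb]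
      rw [e, List.count_cons_of_ne hc, List.nil_append]

theorem fm_b {a b : ℕ} (sa sb : ℕ) (l : List ℕ) (h : a ∉ l) :
    l.flatMap (hs a b sa sb) = List.replicate (l.count b) sb := by
  induction l with
  | nil => rfl
  | cons c l ih =>
    rw [List.flatMap_cons, ih (fun h1 => h (List.mem_cons_of_mem _ h1))]
    have hca : c ≠ a := fun h1 => h (by rw [h1]; exact List.mem_cons_self)
    by_cases hc : c = b
    · subst hc
      have e : hs a c sa sb c = [sb] := by
        unfold hs
        rw [if_neg hca, if_pos rfl]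
      rw [e, List.count_cons_self, List.replicate_succ]
      rfl
    · have e : hs a b sa sb c = [] := by
        unfold hs
        rw [if_neg hca, if_neg hc]
      rw [e, List.count_cons_of_ne hc, List.nil_append]

theorem split_b {a b : ℕ} (hab : a ≠ b) (l : List ℕ) (ha : l.count a = 1) (hb : l.count b = 1) :
    ∃ P Q : List ℕ, l = P ++ b :: Q ∧ b ∉ P ∧ b ∉ Q ∧ cb l a b = P.count a ∧
      P.count a + Q.count a = 1 := by
  have hm : b ∈ l := List.count_pos_iff.1 (by omega)
  obtain ⟨P, Q, e, hP⟩ := List.eq_append_cons_of_mem hm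
  refine ⟨P, Q, e, hP, ?_, ?_, ?_⟩
  · intro h
    have h1 : 0 < Q.count b := List.count_pos_iff.2 h
    rw [e, List.count_append, List.count_cons_self] at hb
    omega
  · rw [e]
    unfold MWGR.cb
    rw [List.takeWhile_append_of_pos, List.takeWhile_cons_of_neg, List.append_nil]
    · simp
    · intro c hc
      rw [decide_eq_true_iff]
      intro h1
      rw [h1] at hc
      exact hP hc
  · rw [e, List.count_append, List.count_cons_of_ne hab.symm] at ha
    exact ha

theorem fm_ab {a b : ℕ} (sa sb : ℕ) (hab : a ≠ b) (l : List ℕ) (ha : l.count a = 1)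
    (hb : l.count b = 1) (hc : cb l a b = 1) : l.flatMap (hs a b sa sb) = [sa, sb] := by
  obtain ⟨P, Q, e, hP, hQ, h1, h2⟩ := split_b hab l ha hb
  rw [h1] at hc
  have hb' : hs a b sa sb b = [sb] := by
    unfold hs
    rw [if_neg hab.symm, if_pos rfl]
  rw [e, List.flatMap_append, List.flatMap_cons, fm_a sa sb P hP, fm_a sa sb Q hQ, hc, hb',
    (by omega : Q.count a = 0)]
  rfl

theorem fm_ba {a b : ℕ} (sa sb : ℕ) (hab : a ≠ b) (l : List ℕ) (ha : l.count a = 1)
    (hb : l.count b = 1) (hc : cb l a b = 0) : l.flatMap (hs a b sa sb) = [sb, sa] := by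
  obtain ⟨P, Q, e, hP, hQ, h1, h2⟩ := split_b hab l ha hb
  rw [h1] at hc
  have hb' : hs a b sa sb b = [sb] := by
    unfold hs
    rw [if_neg hab.symm, if_pos rfl]
  rw [e, List.flatMap_append, List.flatMap_cons, fm_a sa sb P hP, fm_a sa sb Q hQ, hc, hb',
    (by omega : Q.count a = 1)]
  rfl

theorem hs_ok {k a b sa sb : ℕ} (h1 : sa ≤ 1) (h2 : sb ≤ 1) (B : ℕ → List ℕ) :
    BlkOk k (fun j => (B j).flatMap (hs a b sa sb)) := by
  intro j _ c hc hns
  obtain ⟨d, _, hd⟩ := List.mem_flatMap.1 hc
  unfold hs at hd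
  split_ifs at hd
  · rw [List.mem_singleton] at hd
    omega
  · rw [List.mem_singleton] at hd
    omega
  · exact absurd hd (List.not_mem_nil)

/-! ### the row -/

/-- row NSS -/
theorem nss : NssStmt := by
  intro n k θ B B' hF hr i p q a b hi hp hq hip hiq hpq hab hca hcb h1 h0
  -- the counts of `B'`
  have cnt : ∀ c, (∀ j ≤ k, (B j).count c ≤ 1) → c ∈ B i → ∀ j ≤ k,
      (B' j).count c = (B j).count c := by
    intro c hc1 hci j hj
    have hns : NS k c := hF.ok.ok i hi c hci
    rcases hF.eq c hns j hj with h | ⟨h, _, _⟩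
    · exact h.symm
    · have h2 : 2 ≤ (B j).count c := h
      have := hc1 j hj
      omega
  have hai : a ∈ B i := by
    rw [← List.count_pos_iff, hca i hi, if_pos (Or.inl rfl)]
    exact Nat.one_pos
  have hbi : b ∈ B i := by
    rw [← List.count_pos_iff, hcb i hi, if_pos (Or.inl rfl)]
    exact Nat.one_pos
  have hca' := cnt a (fun j hj => by rw [hca j hj]; split_ifs <;> omega) hai
  have hcb' := cnt b (fun j hj => by rw [hcb j hj]; split_ifs <;> omega) hbi
  -- the blocks of a family with these counts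
  have blk : ∀ (D : ℕ → List ℕ) (sa sb : ℕ), (∀ j ≤ k, (D j).count a = (B j).count a) →
      (∀ j ≤ k, (D j).count b = (B j).count b) →
      (D p).flatMap (hs a b sa sb) = [sa] ∧ (D q).flatMap (hs a b sa sb) = [sb] ∧
        ∀ j ≤ k, j ≠ i → j ≠ p → j ≠ q → (D j).flatMap (hs a b sa sb) = [] := by
    intro D sa sb ha hb
    have z : ∀ (c j : ℕ), (D j).count c = 0 → c ∉ D j := fun c j h => List.count_eq_zero.1 h
    refine ⟨?_, ?_, ?_⟩
    · have e1 : (D p).count a = 1 := by rw [ha p hp, hca p hp, if_pos (Or.inr rfl)]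
      have e2 : (D p).count b = 0 := by
        rw [hb p hp, hcb p hp, if_neg]
        rintro (h | h)
        · exact hip h.symm
        · exact hpq h
      rw [fm_a sa sb _ (z b p e2), e1]
      rfl
    · have e1 : (D q).count b = 1 := by rw [hb q hq, hcb q hq, if_pos (Or.inr rfl)]
      have e2 : (D q).count a = 0 := by
        rw [ha q hq, hca q hq, if_neg]
        rintro (h | h)
        · exact hiq h.symm
        · exact hpq h.symm
      rw [fm_b sa sb _ (z a q e2), e1]
      rfl
    · intro j hj hji hjp hjq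
      have e1 : (D j).count a = 0 := by
        rw [ha j hj, hca j hj, if_neg]
        rintro (h | h)
        · exact hji h
        · exact hjp h
      have e2 : (D j).count b = 0 := by
        rw [hb j hj, hcb j hj, if_neg]
        rintro (h | h)
        · exact hji h
        · exact hjq h
      rw [fm_a sa sb _ (z b j e2), e1]
      rfl
  have ai : (B i).count a = 1 := by rw [hca i hi, if_pos (Or.inl rfl)]
  have bi : (B i).count b = 1 := by rw [hcb i hi, if_pos (Or.inl rfl)]
  have ai' : (B' i).count a = 1 := by rw [hca' i hi, ai]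
  have bi' : (B' i).count b = 1 := by rw [hcb' i hi, bi]
  -- the words with three blocks
  have main : ∀ sa sb : ℕ, sa ≤ 1 → sb ≤ 1 → ∀ j0 j1 j2 : ℕ, j0 < j1 → j1 < j2 → j2 ≤ k →
      (∀ j ≤ k, j ≠ j0 → j ≠ j1 → j ≠ j2 → j ≠ i ∧ j ≠ p ∧ j ≠ q) →
      RR θ (((B j0).flatMap (hs a b sa sb) ++ 2 :: (B j1).flatMap (hs a b sa sb)) ++
          3 :: (B j2).flatMap (hs a b sa sb))
        (((B' j0).flatMap (hs a b sa sb) ++ 2 :: (B' j1).flatMap (hs a b sa sb)) ++
          3 :: (B' j2).flatMap (hs a b sa sb)) := by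
    intro sa sb hsa hsb j0 j1 j2 h01 h12 h2k hn
    have h := rr_sub θ (hs a b sa sb) hF.ok.ok hF.ok'.ok hr
    refine core θ (hs_ok hsa hsb B) (hs_ok hsa hsb B') h h01 h12 h2k ?_
    intro j hj g0 g1 g2
    obtain ⟨gi, gp, gq⟩ := hn j hj g0 g1 g2
    exact ⟨(blk B sa sb (fun _ _ => rfl) (fun _ _ => rfl)).2.2 j hj gi gp gq,
      (blk B' sa sb hca' hcb').2.2 j hj gi gp gq⟩
  have b0 := fun sa sb => blk B sa sb (fun _ _ => rfl) (fun _ _ => rfl)
  have b1 := fun sa sb => blk B' sa sb hca' hcb'
  have i0 := fun sa sb => fm_ab sa sb hab (B i) ai bi h1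
  have i1 := fun sa sb => fm_ba sa sb hab (B' i) ai' bi' h0
  refine ⟨fun g1 g2 => ?_, fun g => ?_, fun g1 g2 => ?_⟩
  · rcases Nat.lt_or_gt_of_ne hpq with g | g
    · have h := main 0 1 (by omega) (by omega) i p q g1 g hq (fun j _ a1 a2 a3 => ⟨a1, a2, a3⟩)
      rw [i0, i1, (b0 0 1).1, (b0 0 1).2.1, (b1 0 1).1, (b1 0 1).2.1] at h
      exact h
    · have h := main 1 0 (by omega) (by omega) i q p g2 g hp (fun j _ a1 a2 a3 => ⟨a1, a3, a2⟩)
      rw [i0, i1, (b0 1 0).1, (b0 1 0).2.1, (b1 1 0).1, (b1 1 0).2.1] at h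
      exact h.symm
  · rcases g with ⟨g1, g2⟩ | ⟨g1, g2⟩
    · have h := main 0 1 (by omega) (by omega) p i q g1 g2 hq (fun j _ a1 a2 a3 => ⟨a2, a1, a3⟩)
      rw [i0, i1, (b0 0 1).1, (b0 0 1).2.1, (b1 0 1).1, (b1 0 1).2.1] at h
      exact h
    · have h := main 1 0 (by omega) (by omega) q i p g1 g2 hp (fun j _ a1 a2 a3 => ⟨a2, a3, a1⟩)
      rw [i0, i1, (b0 1 0).1, (b0 1 0).2.1, (b1 1 0).1, (b1 1 0).2.1] at h
      exact h.symm
  · rcases Nat.lt_or_gt_of_ne hpq with g | g
    · have h := main 0 1 (by omega) (by omega) p q i g g2 hi (fun j _ a1 a2 a3 => ⟨a3, a1, a2⟩)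
      rw [i0, i1, (b0 0 1).1, (b0 0 1).2.1, (b1 0 1).1, (b1 0 1).2.1] at h
      exact h
    · have h := main 1 0 (by omega) (by omega) q p i g g1 hi (fun j _ a1 a2 a3 => ⟨a3, a2, a1⟩)
      rw [i0, i1, (b0 1 0).1, (b0 1 0).2.1, (b1 1 0).1, (b1 1 0).2.1] at h
      exact h.symm

end Pool.Agent.MWGI.H21
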